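import Pool.Agent.K9h33.FLG.Move

/-!
Density of the projections of the points of `w² = f(z)`, by moving a point through the levels.
-/

set_option autoImplicit false
set_option linter.unusedSectionVars false
set_option linter.unusedVariables false

open Filter Topology

namespace Pool.Agent.K9h33.FLG

open Pool.Agent.Y720.MZ

variable {K : Type*} [Field K] [NumberField K] {L : Type*} [NontriviallyNormedField L]
  [CompleteSpace L] [ProperSpace L] {α : Type*} [Fintype α]

/-- points close to `z0` which differ from it only at the levels below `j`, with a small ordinate -/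
def Pj (v : AbsoluteValue K ℝ) (p : ℕ) (c : α → ℕ) (f : MvPolynomial α K) (z0 : α → K) (j : ℕ)
    (z : α → K) : Prop :=
  (∀ i, j ≤ c i → z i = z0 i) ∧ (∀ i, v (z i) < 1) ∧
    ∃ w, w ≠ 0 ∧ v w < v (p : K) ∧ w ^ 2 = MvPolynomial.eval z f

/-- integral equations of the level `j` -/
def Lev (v : AbsoluteValue K ℝ) (c : α → ℕ) (f : MvPolynomial α K) (j : ℕ) : Prop :=
  ∃ h q : MvPolynomial α K, (∀ d, v (h.coeff d) ≤ 1) ∧ (∀ d, v (q.coeff d) ≤ 1) ∧
    (∀ z : α → K, (∀ i, j < c i → z i = 0) →
      MvPolynomial.eval z f = MvPolynomial.eval z h ^ 2 * MvPolynomial.eval z q) ∧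
    ((∀ d ∈ q.support, ∑ i with c i = j, d i ≤ 2) ∨
      ((∀ d ∈ q.support, ∑ i with c i = j, d i ≤ 4) ∧ v (h.coeff 0) = 1 ∧
        ∃ i, c i = j ∧ v (q.coeff (Finsupp.single i 1)) = 1))

/-- polynomials vanishing at the points vanish -/
def Dj (v : AbsoluteValue K ℝ) (p : ℕ) (c : α → ℕ) (f : MvPolynomial α K) (z0 : α → K)
    (j : ℕ) : Prop :=
  ∀ g : MvPolynomial α K, (∀ z, Pj v p c f z0 j z → MvPolynomial.eval z g = 0) →
    ∀ z : α → K, (∀ i, j ≤ c i → z i = z0 i) → MvPolynomial.eval z g = 0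

lemma lin_add (q : MvPolynomial α K) (e u : α → K) (s : K) :
    lin q (e + s • u) = lin q e + s * lin q u := by
  simp only [lin, Pi.add_apply, Pi.smul_apply, smul_eq_mul, add_mul, Finset.sum_add_distrib,
    Finset.mul_sum, mul_assoc]

lemma lin_single [DecidableEq α] (q : MvPolynomial α K) (i : α) :
    lin q (Pi.single i 1) = q.coeff (Finsupp.single i 1) := by
  rw [lin, Finset.sum_eq_single i]
  · simp
  · intro b _ hb
    rw [Pi.single_apply, if_neg hb, zero_mul]
  · simp

/-- scaling a vector to an integral one -/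
lemma exists_scale {v : AbsoluteValue K ℝ} {p : ℕ} (hp0 : p ≠ 0) (hp1 : v (p : K) < 1)
    (y : α → K) : ∃ μ : K, μ ≠ 0 ∧ ∀ i, v ((μ • y) i) ≤ 1 := by
  classical
  obtain ⟨M, hM⟩ : ∃ M : ℝ, ∀ i, v (y i) ≤ M :=
    ⟨∑ i, v (y i), fun i => Finset.single_le_sum (fun i _ => v.nonneg _) (Finset.mem_univ i)⟩
  have h1 : Tendsto (fun n : ℕ => v (p : K) ^ n * (M + 1)) atTop (𝓝 0) := by
    simpa using (tendsto_pow_atTop_nhds_zero_of_lt_one (v.nonneg _) hp1).mul_const (M + 1)
  obtain ⟨n, hn⟩ := (h1.eventually_lt_const one_pos).exists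
  refine ⟨(p : K) ^ n, pow_ne_zero _ (Nat.cast_ne_zero.2 hp0), fun i => ?_⟩
  rw [Pi.smul_apply, smul_eq_mul, map_mul, map_pow]
  refine le_trans ?_ hn.le
  exact mul_le_mul_of_nonneg_left ((hM i).trans (by linarith)) (pow_nonneg (v.nonneg _) _)

/-- small elements -/
lemma exists_small {v : AbsoluteValue K ℝ} {p : ℕ} (hp0 : p ≠ 0) (hp1 : v (p : K) < 1) {ε : ℝ}
    (hε : 0 < ε) : ∃ s : K, s ≠ 0 ∧ v s < ε := by
  obtain ⟨n, hn⟩ := ((tendsto_pow_atTop_nhds_zero_of_lt_one (v.nonneg _) hp1).eventually_lt_const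
    hε).exists
  exact ⟨(p : K) ^ n, pow_ne_zero _ (Nat.cast_ne_zero.2 hp0), by rw [map_pow]; exact hn⟩

theorem step (σ : K →+* L) (hσ : DenseRange σ) {v : AbsoluteValue K ℝ} (hσv : ∀ x, ‖σ x‖ = v x)
    (hv : IsNonarchimedean v) {p : ℕ} (hp3 : 3 ≤ p)
    (hpk : ∀ k : ℕ, 1 ≤ k → k < p → v (k : K) = 1) (hp1 : v (p : K) < 1)
    {c : α → ℕ} {f : MvPolynomial α K} {z0 : α → K} (hz0 : ∀ i, 0 < c i → z0 i = 0) {j : ℕ}
    (hL : Lev v c f j) (hD : Dj v p c f z0 j) : Dj v p c f z0 (j + 1) := by
  classical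
  obtain ⟨h, q, hh, hq, hf, hcase⟩ := hL
  intro g hg
  -- moving
  have hmove : ∀ z, Pj v p c f z0 j z → ∀ e : α → K, (∀ i, c i ≠ j → e i = 0) →
      (∀ i, v (e i) ≤ 1) → ((rst q z e).natDegree ≤ 2 ∨
        ((rst q z e).natDegree ≤ 4 ∧ v (lin q e) = 1 ∧ v (h.coeff 0) = 1)) →
      ∀ t : K, MvPolynomial.eval (z + t • e) g = 0 := by
    rintro z ⟨hz1, hz2, w, hw0, hw, hzw⟩ e he he1 hc t
    have h0 : rst g z e = 0 := by
      refine zero_of_small (v := v) fun ε hε => ?_
      obtain ⟨t, Y, ht0, ht, hY0, hY, hYe⟩ := move σ hσ hσv hv hp3 hpk hp1 hh hq hz2 he1 hw0 hw hzw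
        (fun t => hf _ fun i hi => by
          rw [Pi.add_apply, Pi.smul_apply, hz1 i hi.le, hz0 i (by omega), he i (by omega),
            smul_zero, add_zero]) hc (lt_min hε one_pos)
      refine ⟨t, ht0, ht.trans_le (min_le_left _ _), ?_⟩
      rw [rst_eval]
      refine hg _ ⟨fun i hi => ?_, fun i => ?_, Y, hY0, hY, hYe⟩
      · rw [Pi.add_apply, Pi.smul_apply, he i (by omega), smul_zero, add_zero]
        exact hz1 i (by omega)
      · refine (hv _ _).trans_lt (max_lt (hz2 i) ?_)
        rw [Pi.smul_apply, smul_eq_mul, map_mul]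
        calc v t * v (e i) ≤ v t * 1 := mul_le_mul_of_nonneg_left (he1 i) (v.nonneg _)
          _ = v t := mul_one _
          _ < 1 := ht.trans_le (min_le_right _ _)
    rw [← rst_eval, h0, Polynomial.eval_zero]
  -- moving in all directions of the level
  have hall : ∀ z, Pj v p c f z0 j z → ∀ y : α → K, (∀ i, c i ≠ j → y i = 0) →
      MvPolynomial.eval (z + y) g = 0 := by
    intro z hz y hy
    obtain ⟨μ, hμ0, hμ⟩ := exists_scale (v := v) (by omega) hp1 y
    have hsupp : ∀ i, c i ≠ j → (μ • y) i = 0 := fun i hi => by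
      rw [Pi.smul_apply, hy i hi, smul_zero]
    have hTe : ∀ e : α → K, (∀ i, c i ≠ j → e i = 0) →
        ∀ i ∉ Finset.univ.filter (fun i => c i = j), e i = 0 := fun e he i hi =>
      he i (by simpa using hi)
    have hback : ∀ r : K, (∀ r : K, MvPolynomial.eval (z + r • (μ • y)) g = 0) →
        MvPolynomial.eval (z + y) g = 0 := by
      intro _ h1
      have h2 := h1 μ⁻¹
      rwa [smul_smul, inv_mul_cancel₀ hμ0, one_smul] at h2
    rcases hcase with h2 | ⟨h4, hh0, i0, hi0, hqi⟩
    · exact hback 0 fun r => hmove z hz (μ • y) hsupp hμ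
        (Or.inl (rst_deg h2 (hTe _ hsupp))) r
    · refine hback 0 fun r => ?_
      have he0 : ∀ i, c i ≠ j → (Pi.single i0 1 : α → K) i = 0 := by
        intro i hi
        rw [Pi.single_apply, if_neg]
        rintro rfl
        exact hi hi0
      have hlu : v (lin q (μ • y)) ≤ 1 := by
        refine v_sum_le hv _ _ zero_le_one fun i _ => ?_
        rw [map_mul]
        exact mul_le_one₀ (hμ i) (v.nonneg _) (hq _)
      have h5 : ∀ s : K, v s < 1 → ∀ t : K,
          MvPolynomial.eval (z + t • (Pi.single i0 1 + s • (μ • y))) g = 0 := by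
        intro s hs t
        have hsupp' : ∀ i, c i ≠ j → (Pi.single i0 1 + s • (μ • y) : α → K) i = 0 := by
          intro i hi
          rw [Pi.add_apply, he0 i hi, Pi.smul_apply, hsupp i hi, smul_zero, add_zero]
        refine hmove z hz _ hsupp' (fun i => ?_)
          (Or.inr ⟨rst_deg h4 (hTe _ hsupp'), ?_, hh0⟩) t
        · refine na_add hv ?_ ?_
          · rw [Pi.single_apply]
            split_ifs <;> simp
          · rw [Pi.smul_apply, smul_eq_mul, map_mul]
            exact mul_le_one₀ hs.le (v.nonneg _) (hμ i)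
        · refine v_unit hv ?_ hqi
          rw [lin_add, lin_single, add_sub_cancel_left, map_mul]
          calc v s * v (lin q (μ • y)) ≤ v s * 1 := mul_le_mul_of_nonneg_left hlu (v.nonneg _)
            _ = v s := mul_one _
            _ < 1 := hs
      have h6 : ∀ t : K, t ≠ 0 → ∀ r : K,
          MvPolynomial.eval (z + t • (Pi.single i0 1) + r • (μ • y)) g = 0 := by
        intro t ht r
        have h7 : rst g (z + t • (Pi.single i0 1)) (μ • y) = 0 := by
          refine zero_of_small (v := v) fun ε hε => ?_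
          obtain ⟨s, hs0, hs⟩ := exists_small (v := v) (p := p) (by omega) hp1
            (lt_min one_pos (div_pos hε (v.pos ht)))
          refine ⟨t * s, mul_ne_zero ht hs0, ?_, ?_⟩
          · rw [map_mul]
            calc v t * v s < v t * (ε / v t) :=
                  mul_lt_mul_of_pos_left (hs.trans_le (min_le_right _ _)) (v.pos ht)
              _ = ε := mul_div_cancel₀ _ (v.pos ht).ne'
          · have h8 := h5 s (hs.trans_le (min_le_left _ _)) t
            rw [rst_eval]
            rw [← h8]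
            congr 2
            rw [smul_add, add_assoc, ← smul_smul]
        rw [← rst_eval, h7, Polynomial.eval_zero]
      have h9 : rst g (z + r • (μ • y)) (Pi.single i0 1) = 0 := by
        refine zero_of_small (v := v) fun ε hε => ?_
        obtain ⟨s, hs0, hs⟩ := exists_small (v := v) (p := p) (by omega) hp1 hε
        refine ⟨s, hs0, hs, ?_⟩
        rw [rst_eval, ← h6 s hs0 r]
        congr 2
        abel
      have h10 := congrArg (Polynomial.eval 0) h9
      rwa [rst_eval, zero_smul, add_zero, Polynomial.eval_zero] at h10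
  -- the induction hypothesis
  intro z' hz'
  obtain ⟨y, hy⟩ : ∃ y : α → K, y = fun i => if c i = j then z' i - z0 i else 0 := ⟨_, rfl⟩
  obtain ⟨z, hz⟩ : ∃ z : α → K, z = fun i => if c i = j then z0 i else z' i := ⟨_, rfl⟩
  have h1 := hD (MvPolynomial.aeval (fun i => MvPolynomial.X i + MvPolynomial.C (y i)) g)
    (fun x hx => by
      rw [eval_sub]
      have h2 := hall x hx y fun i hi => by rw [hy]; exact if_neg hi
      rw [← h2]
      congr 2
      funext i
      simp) z fun i hi => by
      rw [hz]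
      by_cases hc : c i = j
      · simp [hc]
      · simp only [hc, if_false]
        exact hz' i (by omega)
  rw [eval_sub] at h1
  rw [← h1]
  congr 2
  funext i
  rw [map_add, MvPolynomial.eval_X, MvPolynomial.eval_C, hy, hz]
  by_cases hc : c i = j
  · simp [hc]
  · simp [hc]

/-- **Density of the projections.** -/
theorem dens (σ : K →+* L) (hσ : DenseRange σ) {v : AbsoluteValue K ℝ} (hσv : ∀ x, ‖σ x‖ = v x)
    (hv : IsNonarchimedean v) {p : ℕ} (hp3 : 3 ≤ p)
    (hpk : ∀ k : ℕ, 1 ≤ k → k < p → v (k : K) = 1) (hp1 : v (p : K) < 1)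
    {c : α → ℕ} {f : MvPolynomial α K} {z0 : α → K} (hz0 : ∀ i, 0 < c i → z0 i = 0)
    (hz1 : ∀ i, v (z0 i) < 1) {w0 : K} (hw0 : w0 ≠ 0) (hw : v w0 < v (p : K))
    (hzw : w0 ^ 2 = MvPolynomial.eval z0 f) (hL : ∀ j, Lev v c f j) {g : MvPolynomial α K}
    (hg : ∀ (z : α → K) (w : K), w ≠ 0 → w ^ 2 = MvPolynomial.eval z f →
      MvPolynomial.eval z g = 0) : g = 0 := by
  have h1 : ∀ j, Dj v p c f z0 j := by
    intro j
    induction j with
    | zero =>
      intro g hg z hz
      refine hg z ⟨hz, fun i => ?_, w0, hw0, hw, ?_⟩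
      · rw [hz i (Nat.zero_le _)]
        exact hz1 i
      · rw [hzw]
        congr 2
        funext i
        exact (hz i (Nat.zero_le _)).symm
    | succ j ih => exact step σ hσ hσv hv hp3 hpk hp1 hz0 (hL j) ih
  obtain ⟨m, hm⟩ : ∃ m, ∀ i, c i < m :=
    ⟨(∑ i, c i) + 1, fun i => Nat.lt_succ_of_le (Finset.single_le_sum (fun i _ => Nat.zero_le _)
      (Finset.mem_univ i))⟩
  apply MvPolynomial.funext
  intro z
  rw [map_zero]
  refine h1 m g (fun x hx => ?_) z fun i hi => absurd (hm i) (by omega)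
  obtain ⟨-, -, w, hw0, -, hw⟩ := hx
  exact hg x w hw0 hw

/-- **Density of the points of the double cover.** -/
theorem cover {f : MvPolynomial α K} (hsq : ¬IsSquare f)
    (hden : ∀ g : MvPolynomial α K, (∀ (z : α → K) (w : K), w ≠ 0 →
      w ^ 2 = MvPolynomial.eval z f → MvPolynomial.eval z g = 0) → g = 0)
    {g : MvPolynomial (Option α) K} (hg : ∀ (z : α → K) (w : K), w ^ 2 = MvPolynomial.eval z f →
      MvPolynomial.eval (fun o => o.elim w z) g = 0) :
    (MvPolynomial.X none ^ 2 - MvPolynomial.rename some f) ∣ g := by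
  classical
  set G := MvPolynomial.optionEquivLeft K α g with hG
  set q : Polynomial (MvPolynomial α K) := Polynomial.X ^ 2 - Polynomial.C f with hq
  have hqm : q.Monic := by
    rw [hq]; exact Polynomial.monic_X_pow_sub_C f two_ne_zero
  set r := G %ₘ q with hr
  have hqd : q.natDegree = 2 := by rw [hq]; exact Polynomial.natDegree_X_pow_sub_C
  have hrd : r.natDegree < 2 := by
    rw [← hqd, hr]
    exact Polynomial.natDegree_modByMonic_lt _ hqm (by
      intro h
      rw [h] at hqd
      simp at hqd)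
  have hr' : r = .C (r.coeff 0) + .C (r.coeff 1) * .X := by
    conv_lhs => rw [r.as_sum_range_C_mul_X_pow' (n := 2) (by omega)]
    simp [Finset.sum_range_succ]
  set g0 := r.coeff 0
  set g1 := r.coeff 1
  have hdiv : G = r + q * (G /ₘ q) := (Polynomial.modByMonic_add_div G q).symm
  have hN : g0 ^ 2 - f * g1 ^ 2 = 0 := by
    refine hden _ ?_
    intro z w hw0 hzw'
    have h1 := hg z w hzw'
    rw [eval_option, ← hG, hdiv] at h1
    rw [Polynomial.map_add, Polynomial.map_mul, Polynomial.eval_add, Polynomial.eval_mul] at h1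
    have h2 : (q.map (MvPolynomial.eval z)).eval w = 0 := by
      rw [hq]; simp [hzw']
    rw [h2, zero_mul, add_zero, hr'] at h1
    simp only [Polynomial.map_add, Polynomial.map_C, Polynomial.map_mul, Polynomial.map_X,
      Polynomial.eval_add, Polynomial.eval_C, Polynomial.eval_mul, Polynomial.eval_X] at h1
    rw [map_sub, map_mul, map_pow, map_pow, ← hzw']
    linear_combination (MvPolynomial.eval z g0 - w * MvPolynomial.eval z g1) * h1
  have hg1 : g1 = 0 := by
    by_contra h1
    have h2 : g1 ^ 2 ∣ g0 ^ 2 := ⟨f, by linear_combination hN⟩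
    have h3 : g1 ∣ g0 := (IsIntegrallyClosed.pow_dvd_pow_iff two_ne_zero).1 h2
    obtain ⟨d, hd⟩ := h3
    apply hsq
    refine ⟨d, ?_⟩
    apply mul_left_cancel₀ (pow_ne_zero 2 h1)
    rw [hd] at hN
    linear_combination -hN
  have hg0 : g0 = 0 := by
    rw [hg1] at hN
    have : g0 ^ 2 = 0 := by linear_combination hN
    exact pow_eq_zero_iff two_ne_zero |>.1 this
  have hr0 : r = 0 := by rw [hr', hg0, hg1]; simp
  have h5 : q ∣ G := by
    rw [hdiv, hr0, zero_add]
    exact dvd_mul_right _ _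
  have h6 : MvPolynomial.optionEquivLeft K α
      (MvPolynomial.X none ^ 2 - MvPolynomial.rename some f) = q := by
    rw [hq, map_sub, map_pow, MvPolynomial.optionEquivLeft_X_none]
    congr 1
    have : ∀ f : MvPolynomial α K, MvPolynomial.optionEquivLeft K α
        (MvPolynomial.rename some f) = Polynomial.C f := by
      intro f
      induction f using MvPolynomial.induction_on with
      | C a => simp [MvPolynomial.optionEquivLeft_C]
      | add p q hp hq => rw [map_add, map_add, hp, hq, map_add]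
      | mul_X p i hp =>
        rw [map_mul, map_mul, hp, MvPolynomial.rename_X, MvPolynomial.optionEquivLeft_X_some,
          map_mul]
    exact this f
  rw [← h6] at h5
  exact (map_dvd_iff (MvPolynomial.optionEquivLeft K α)).1 h5

end Pool.Agent.K9h33.FLG
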