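import Pool.Agent.K9h33.FLG.Place

/-!
Double covers of flag type: density of the points over quadratic extensions.
-/

set_option autoImplicit false
set_option linter.unusedSectionVars false
set_option linter.unusedVariables false

open Filter Topology NumberField IsDedekindDomain

namespace Pool.Agent.K9h33.FLG

open Pool.Agent.Y720.MZ

/-- the polynomial obtained from `f` by setting the variables of level above `j` to zero -/
noncomputable def cut {R α : Type*} [CommRing R] (c : α → ℕ) (j : ℕ) (f : MvPolynomial α R) :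
    MvPolynomial α R :=
  MvPolynomial.aeval (fun i => if c i ≤ j then MvPolynomial.X i else 0) f

/-- flag type -/
def Flag {R α : Type*} [CommRing R] [Fintype α] (c : α → ℕ) (f : MvPolynomial α R) : Prop :=
  f.coeff 0 = 0 ∧ (∃ i, c i = 0 ∧ f.coeff (Finsupp.single i 1) ≠ 0) ∧
  ∀ j, ∃ h q : MvPolynomial α R, cut c j f = h ^ 2 * q ∧
    ((∀ d ∈ q.support, ∑ i with c i = j, d i ≤ 2) ∨
      ((∀ d ∈ q.support, ∑ i with c i = j, d i ≤ 4) ∧
        ∃ i, c i = j ∧ f.coeff (Finsupp.single i 1) ≠ 0))

lemma cut_eval {R α : Type*} [CommRing R] (c : α → ℕ) (j : ℕ) (f : MvPolynomial α R) (z : α → R) :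
    MvPolynomial.eval z (cut c j f) = MvPolynomial.eval (fun i => if c i ≤ j then z i else 0) f := by
  rw [cut, eval_sub]
  congr 2
  funext i
  split_ifs <;> simp

lemma cut_map {R S α : Type*} [CommRing R] [CommRing S] (ι : R →+* S) (c : α → ℕ) (j : ℕ)
    (f : MvPolynomial α R) : cut c j (MvPolynomial.map ι f) = MvPolynomial.map ι (cut c j f) := by
  induction f using MvPolynomial.induction_on with
  | C a => simp [cut]
  | add p q hp hq => simp only [cut, map_add] at *; rw [hp, hq]
  | mul_X p i hp =>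
    simp only [cut, map_mul, MvPolynomial.map_X, MvPolynomial.aeval_X] at *
    rw [hp]
    congr 1
    split_ifs <;> simp

section alg

variable {K : Type*} [Field K] [CharZero K] {α : Type*} [Fintype α]

lemma rst_mul (f g : MvPolynomial α K) (z e : α → K) : rst (f * g) z e = rst f z e * rst g z e := by
  simp only [rst, map_mul]

lemma rst_sq (f : MvPolynomial α K) (z e : α → K) : rst (f ^ 2) z e = rst f z e ^ 2 := by
  simp only [rst, map_pow]

lemma lin_single' [DecidableEq α] (q : MvPolynomial α K) (i : α) :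
    lin q (Pi.single i 1) = q.coeff (Finsupp.single i 1) := by
  rw [lin, Finset.sum_eq_single i]
  · simp
  · intro b _ hb
    rw [Pi.single_apply, if_neg hb, zero_mul]
  · simp

lemma coeff_single [DecidableEq α] (f : MvPolynomial α K) (i : α) :
    (rst f 0 (Pi.single i 1)).coeff 1 = f.coeff (Finsupp.single i 1) := by
  rw [rst_one, ← lin_single', ← dd_zero]
  rw [← MvPolynomial.constantCoeff_eq, ← MvPolynomial.eval_zero]

lemma coeff_zero' (f : MvPolynomial α K) (e : α → K) : (rst f 0 e).coeff 0 = f.coeff 0 := by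
  rw [rst_zero, ← MvPolynomial.constantCoeff_eq, ← MvPolynomial.eval_zero]

/-- units in the factorization -/
lemma factor_units [DecidableEq α] {f h q : MvPolynomial α K} {c : α → ℕ} {j : ℕ}
    (h0 : f.coeff 0 = 0) (hf : cut c j f = h ^ 2 * q) {i : α} (hi : c i = j)
    (hfi : f.coeff (Finsupp.single i 1) ≠ 0) :
    h.coeff 0 ≠ 0 ∧ q.coeff (Finsupp.single i 1) ≠ 0 := by
  have h1 : rst f 0 (Pi.single i 1) = rst h 0 (Pi.single i 1) ^ 2 * rst q 0 (Pi.single i 1) := by
    rw [← rst_sq, ← rst_mul, ← hf]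
    apply Polynomial.funext
    intro t
    rw [rst_eval, rst_eval, cut_eval]
    congr 2
    funext l
    by_cases hl : c l ≤ j
    · rw [if_pos hl]
    · rw [if_neg hl]
      simp only [zero_add, Pi.smul_apply, Pi.single_apply, smul_eq_mul]
      rw [if_neg, mul_zero]
      rintro rfl
      exact hl hi.le
  have h2 := congrArg (fun P => Polynomial.coeff P 0) h1
  have h3 := congrArg (fun P => Polynomial.coeff P 1) h1
  simp only [Polynomial.mul_coeff_zero, Polynomial.mul_coeff_one, sq, coeff_zero', coeff_single,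
    h0] at h2 h3
  have ha : h.coeff 0 ≠ 0 := by
    intro ha
    apply hfi
    rw [h3, ha]
    ring
  have hb : q.coeff 0 = 0 := by
    rcases mul_eq_zero.1 h2.symm with h4 | h4
    · exact absurd (mul_self_eq_zero.1 h4) ha
    · exact h4
  refine ⟨ha, fun hq => hfi ?_⟩
  rw [h3, hb, hq]
  ring

/-- not a square -/
lemma not_square [DecidableEq α] {f : MvPolynomial α K} (h0 : f.coeff 0 = 0) {i : α}
    (hfi : f.coeff (Finsupp.single i 1) ≠ 0) : ¬IsSquare f := by
  rintro ⟨g, rfl⟩
  have h2 : g.coeff 0 = 0 := by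
    rw [← coeff_zero' _ (Pi.single i (1 : K)), rst_mul, Polynomial.mul_coeff_zero,
      coeff_zero'] at h0
    exact mul_self_eq_zero.1 h0
  apply hfi
  rw [← coeff_single, rst_mul, Polynomial.mul_coeff_one, coeff_zero', h2]
  ring

end alg

/-- the value at a multiple of a vector -/
lemma val_first {K : Type*} [Field K] [CharZero K] {α : Type*} [Fintype α]
    {v : AbsoluteValue K ℝ} (hv : IsNonarchimedean v) {f : MvPolynomial α K}
    (hf : ∀ d, v (f.coeff d) ≤ 1) (h0 : f.coeff 0 = 0) {e : α → K} (he : ∀ i, v (e i) ≤ 1)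
    (hl : v (lin f e) = 1) {t : K} (ht0 : t ≠ 0) (ht : v t < 1) :
    v (MvPolynomial.eval (t • e) f) = v t := by
  have h1 : MvPolynomial.eval (t • e) f = lin f e * t +
      ∑ k ∈ Finset.range ((rst f 0 e).natDegree + 1), (rst f 0 e).coeff (k + 2) * t ^ (k + 2) := by
    have h2 : MvPolynomial.eval (t • e) f = (rst f 0 e).eval t := by
      rw [rst_eval, zero_add]
    rw [h2, Polynomial.eval_eq_sum_range' (n := (rst f 0 e).natDegree + 1 + 1 + 1) (by omega),
      Finset.sum_range_succ', Finset.sum_range_succ', coeff_zero', h0]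
    have h3 : (rst f 0 e).coeff (0 + 1) = lin f e := by
      rw [zero_add, rst_one, ← dd_zero, ← MvPolynomial.constantCoeff_eq, ← MvPolynomial.eval_zero]
    rw [h3]
    ring
  have hvt : 0 < v t := v.pos ht0
  have h4 : v (∑ k ∈ Finset.range ((rst f 0 e).natDegree + 1),
      (rst f 0 e).coeff (k + 2) * t ^ (k + 2)) ≤ v t ^ 2 := by
    refine v_sum_le hv _ _ (by positivity) fun k _ => ?_
    rw [map_mul, map_pow, pow_add]
    calc v ((rst f 0 e).coeff (k + 2)) * (v t ^ k * v t ^ 2) ≤ 1 * (1 * v t ^ 2) := by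
          refine mul_le_mul (rst_int hv hf (by simp) he _) (mul_le_mul_of_nonneg_right
            (pow_le_one₀ (v.nonneg _) ht.le) (by positivity)) (by positivity) zero_le_one
      _ = v t ^ 2 := by ring
  have h5 : v (lin f e * t) = v t := by rw [map_mul, hl, one_mul]
  rw [h1, na_eq hv, h5]
  rw [h5]
  refine h4.trans_lt ?_
  nlinarith

/-- the points over `L` of the double cover `w² = f(x)` are Zariski dense -/
def Dense (K : Type) [Field K] {α : Type} (f : MvPolynomial α K) (L : Type) [Field L]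
    [Algebra K L] : Prop :=
  ∀ g : MvPolynomial (Option α) L, (∀ (z : α → L) (w : L),
    w ^ 2 = MvPolynomial.eval z (MvPolynomial.map (algebraMap K L) f) →
      MvPolynomial.eval (fun o => o.elim w z) g = 0) →
    (MvPolynomial.X none ^ 2 - MvPolynomial.rename some (MvPolynomial.map (algebraMap K L) f)) ∣ g

/-- **Double covers of flag type: one point suffices.** -/
theorem flag_point (K : Type) [Field K] [NumberField K] {α : Type} [Fintype α] [DecidableEq α]
    (c : α → ℕ) (f : MvPolynomial α K) (hf : Flag c f) (i0 : α) (hi0 : c i0 = 0)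
    (hfi0 : f.coeff (Finsupp.single i0 1) ≠ 0) :
    ∃ N : ℕ, ∀ p : ℕ, p.Prime → N < p → ∀ (L : Type) [Field L] [NumberField L] [Algebra K L]
      (t : 𝓞 L), (p : 𝓞 L) ^ 3 ∣ t → ∀ s : L, s ≠ 0 →
        s ^ 2 = MvPolynomial.aeval (Pi.single i0 (t : L)) f → Dense K f L := by
  classical
  obtain ⟨h0, -, hlev⟩ := hf
  choose h q hhq hdeg using hlev
  obtain ⟨m, hm⟩ : ∃ m, ∀ i, c i < m :=
    ⟨(∑ i, c i) + 1, fun i => Nat.lt_succ_of_le (Finset.single_le_sum (fun i _ => Nat.zero_le _)
      (Finset.mem_univ i))⟩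
  let cf : MvPolynomial α K → Finset K := fun g => g.support.image g.coeff
  obtain ⟨N, hN⟩ := exists_pl K (cf f ∪ (Finset.range m).biUnion fun j => cf (h j) ∪ cf (q j))
  refine ⟨N + 3, fun p hp hpN L _ _ _ t htp s hs0 hs => ?_⟩
  obtain ⟨v, hv, hpk, hvp, hle, hun⟩ := hN p hp (by omega) L (algebraMap K L)
  have hp3 : 3 ≤ p := by omega
  have hcf : ∀ g : MvPolynomial α K, (∀ x ∈ cf g, x ∈ cf f ∪ (Finset.range m).biUnion
      fun j => cf (h j) ∪ cf (q j)) → ∀ d, v ((MvPolynomial.map (algebraMap K L) g).coeff d) ≤ 1 := by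
    intro g hg d
    rw [MvPolynomial.coeff_map]
    by_cases hd : g.coeff d = 0
    · rw [hd]; simp
    · exact hle _ (hg _ (Finset.mem_image_of_mem _ (MvPolynomial.mem_support_iff.2 hd)))
  have hcu : ∀ g : MvPolynomial α K, (∀ x ∈ cf g, x ∈ cf f ∪ (Finset.range m).biUnion
      fun j => cf (h j) ∪ cf (q j)) → ∀ d, g.coeff d ≠ 0 →
      v ((MvPolynomial.map (algebraMap K L) g).coeff d) = 1 := by
    intro g hg d hd
    rw [MvPolynomial.coeff_map]
    exact hun _ (hg _ (Finset.mem_image_of_mem _ (MvPolynomial.mem_support_iff.2 hd))) hd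
  have hSf : ∀ x ∈ cf f, x ∈ cf f ∪ (Finset.range m).biUnion fun j => cf (h j) ∪ cf (q j) :=
    fun x hx => Finset.mem_union_left _ hx
  have hSh : ∀ j, j < m → ∀ x ∈ cf (h j), x ∈ cf f ∪ (Finset.range m).biUnion
      fun j => cf (h j) ∪ cf (q j) := fun j hj x hx => Finset.mem_union_right _
    (Finset.mem_biUnion.2 ⟨j, Finset.mem_range.2 hj, Finset.mem_union_left _ hx⟩)
  have hSq : ∀ j, j < m → ∀ x ∈ cf (q j), x ∈ cf f ∪ (Finset.range m).biUnion
      fun j => cf (h j) ∪ cf (q j) := fun j hj x hx => Finset.mem_union_right _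
    (Finset.mem_biUnion.2 ⟨j, Finset.mem_range.2 hj, Finset.mem_union_right _ hx⟩)
  -- the completion
  have hpL : ((p : ℕ) : L) ≠ 0 := Nat.cast_ne_zero.2 hp.ne_zero
  obtain ⟨E, _, _, σ, hσ, hσv⟩ := exists_completion v ⟨(p : L), hpL, hvp.ne⟩
  have : ProperSpace E := Pool.Agent.W279.Tri.properSpace_of_denseRange σ hσ
  -- the base point
  have hvint : ∀ x : 𝓞 L, v (x : L) ≤ 1 := by
    intro x
    obtain ⟨P, hPm, hP⟩ := x.isIntegral_coe
    by_contra hcon
    push Not at hcon
    -- the leading term dominates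
    have h1 : (x : L) ^ P.natDegree = -∑ k ∈ Finset.range P.natDegree,
        ((P.coeff k : ℤ) : L) * (x : L) ^ k := by
      rw [Polynomial.eval₂_eq_sum_range, Finset.sum_range_succ, hPm.coeff_natDegree] at hP
      simp only [map_one, one_mul, eq_intCast] at hP
      linear_combination hP
    have hx0 : 0 < v (x : L) := zero_lt_one.trans hcon
    have h2 : v (∑ k ∈ Finset.range P.natDegree, ((P.coeff k : ℤ) : L) * (x : L) ^ k) ≤
        v (x : L) ^ (P.natDegree - 1) := by
      refine v_sum_le hv _ _ (by positivity) fun k hk => ?_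
      rw [map_mul, map_pow]
      have h3 : v ((P.coeff k : ℤ) : L) ≤ 1 := by
        obtain ⟨a, h4 | h4⟩ := (P.coeff k).eq_nat_or_neg
        · rw [h4]; simpa using na_nat hv a
        · rw [h4, Int.cast_neg, v.map_neg]; simpa using na_nat hv a
      calc v ((P.coeff k : ℤ) : L) * v (x : L) ^ k ≤ 1 * v (x : L) ^ (P.natDegree - 1) := by
            refine mul_le_mul h3 (pow_le_pow_right₀ hcon.le ?_) (by positivity) zero_le_one
            have := Finset.mem_range.1 hk
            omega
        _ = _ := one_mul _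
    have hdeg : P.natDegree ≠ 0 := by
      intro h3
      rw [h3] at h1
      simp at h1
    have h3 : v (x : L) ^ P.natDegree ≤ v (x : L) ^ (P.natDegree - 1) := by
      rw [← map_pow, h1, v.map_neg]
      exact h2
    have h4 : P.natDegree = P.natDegree - 1 + 1 := by omega
    rw [h4, pow_succ] at h3
    have h5 : 0 < v (x : L) ^ (P.natDegree - 1) := by positivity
    simp only [add_tsub_cancel_right] at h3
    nlinarith
  have hvt3 : v (t : L) ≤ v (p : L) ^ 3 := by
    obtain ⟨u, hu⟩ := htp
    have h1 : (t : L) = (p : L) ^ 3 * (u : L) := by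
      rw [hu]; simp
    rw [h1, map_mul, map_pow]
    calc v (p : L) ^ 3 * v (u : L) ≤ v (p : L) ^ 3 * 1 :=
          mul_le_mul_of_nonneg_left (hvint u) (pow_nonneg (v.nonneg _) _)
      _ = _ := mul_one _
  set f' := MvPolynomial.map (algebraMap K L) f with hf'
  have hf'0 : f'.coeff 0 = 0 := by rw [hf', MvPolynomial.coeff_map, h0, map_zero]
  have hf'i : f'.coeff (Finsupp.single i0 1) ≠ 0 := by
    rw [hf', MvPolynomial.coeff_map]
    exact (map_ne_zero _).2 hfi0
  have hvt0 : 0 < v ((p : L)) := v.pos hpL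
  have hvt : v (t : L) < 1 := by
    refine hvt3.trans_lt ?_
    exact pow_lt_one₀ (v.nonneg _) hvp (by norm_num)
  have hsm : (Pi.single i0 (t : L) : α → L) = (t : L) • (Pi.single i0 1 : α → L) := by
    funext i
    rw [Pi.smul_apply, Pi.single_apply, Pi.single_apply]
    split_ifs <;> simp
  have hw0 : s ^ 2 = MvPolynomial.eval ((t : L) • (Pi.single i0 1 : α → L)) f' := by
    rw [hs, hsm, hf', MvPolynomial.eval_map, MvPolynomial.aeval_def]
  have ht0 : (t : L) ≠ 0 := by
    intro h1
    rw [h1, zero_smul] at hw0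
    rw [MvPolynomial.eval_zero, MvPolynomial.constantCoeff_eq, hf'0] at hw0
    exact hs0 (pow_eq_zero_iff two_ne_zero |>.1 hw0)
  have hval : v (MvPolynomial.eval ((t : L) • (Pi.single i0 1 : α → L)) f') = v (t : L) := by
    refine val_first hv (hcf f hSf) hf'0 (fun i => ?_) ?_ ht0 hvt
    · rw [Pi.single_apply]
      split_ifs <;> simp
    · rw [lin_single]
      exact hcu f hSf _ hfi0
  have hvs : v s ^ 2 = v (t : L) := by
    rw [← map_pow, hw0, hval]
  have hvs1 : v s < v (p : L) := by
    refine lt_of_pow_lt_pow_left₀ 2 (v.nonneg _) ?_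
    rw [hvs]
    nlinarith [pow_pos hvt0 2]
  -- the levels
  have hLev : ∀ j, Lev v c f' j := by
    intro j
    by_cases hj : j < m
    · refine ⟨MvPolynomial.map (algebraMap K L) (h j), MvPolynomial.map (algebraMap K L) (q j),
        hcf _ (hSh j hj), hcf _ (hSq j hj), fun z hz => ?_, ?_⟩
      · have h1 : MvPolynomial.eval z f' = MvPolynomial.eval z (cut c j f') := by
          rw [cut_eval]
          congr 2
          funext i
          by_cases hi : c i ≤ j
          · rw [if_pos hi]
          · rw [if_neg hi]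
            exact hz i (by omega)
        rw [h1, hf', cut_map, hhq, map_mul, map_pow, map_mul, map_pow]
      · have hsup : ∀ d ∈ (MvPolynomial.map (algebraMap K L) (q j)).support,
            d ∈ (q j).support := fun d hd => MvPolynomial.support_map_subset _ _ hd
        rcases hdeg j with h2 | ⟨h4, i, hi, hfi⟩
        · exact Or.inl fun d hd => h2 d (hsup d hd)
        · obtain ⟨h5, h6⟩ := factor_units h0 (hhq j) hi hfi
          exact Or.inr ⟨fun d hd => h4 d (hsup d hd), hcu _ (hSh j hj) _ h5, i, hi,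
            hcu _ (hSq j hj) _ h6⟩
    · refine ⟨1, f', fun d => ?_, hcf _ hSf, fun z _ => by simp, Or.inl fun d _ => ?_⟩
      · rw [MvPolynomial.coeff_one]
        split_ifs <;> simp
      · have h1 : (Finset.univ.filter fun i => c i = j) = ∅ := by
          apply Finset.filter_eq_empty_iff.2
          intro i _ hi
          exact hj (hi ▸ hm i)
        rw [h1, Finset.sum_empty]
        exact Nat.zero_le _
  intro g hg
  refine cover (not_square hf'0 hf'i) (fun g' hg' => ?_) hg
  refine dens σ hσ hσv hv hp3 hpk hvp (z0 := (t : L) • (Pi.single i0 1 : α → L)) ?_ ?_ hs0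
    hvs1 hw0 hLev hg'
  · intro i hi
    rw [Pi.smul_apply, Pi.single_apply, if_neg, smul_zero]
    rintro rfl
    omega
  · intro i
    rw [Pi.smul_apply, Pi.single_apply, smul_eq_mul]
    split_ifs
    · rw [mul_one]
      exact hvt
    · simp

/-- **Double covers of flag type: quadratic extensions.** -/
theorem flag_quad (K : Type) [Field K] [NumberField K] {α : Type} [Fintype α]
    (c : α → ℕ) (f : MvPolynomial α K) (hf : Flag c f) :
    ∃ (L : Type) (_ : Field L) (_ : NumberField L) (_ : Algebra K L), Module.finrank K L ≤ 2 ∧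
      Dense K f L := by
  classical
  obtain ⟨i0, hi0, hfi0⟩ := hf.2.1
  obtain ⟨N, hN⟩ := flag_point K c f hf i0 hi0 hfi0
  -- infinitely many values
  have hP : rst f 0 (Pi.single i0 1) ≠ 0 := by
    intro h1
    apply hfi0
    rw [← coeff_single, h1, Polynomial.coeff_zero]
  obtain ⟨p, hpN, hp, hd0⟩ : ∃ p, N < p ∧ p.Prime ∧
      (rst f 0 (Pi.single i0 1)).eval ((p : K) ^ 3) ≠ 0 := by
    by_contra hcon
    push Not at hcon
    apply hP
    refine Polynomial.eq_zero_of_infinite_isRoot _ ?_
    have hinf : {p : ℕ | p.Prime ∧ N < p}.Infinite := by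
      refine Set.infinite_of_not_bddAbove ?_
      rintro ⟨B, hB⟩
      obtain ⟨p, hp1, hp2⟩ := Nat.exists_infinite_primes (B + N + 1)
      have := hB ⟨hp2, by omega⟩
      omega
    have hinj : Set.InjOn (fun p : ℕ => (p : K) ^ 3) {p : ℕ | p.Prime ∧ N < p} := by
      intro a _ b _ hab
      have h1 : ((a ^ 3 : ℕ) : K) = ((b ^ 3 : ℕ) : K) := by push_cast; exact hab
      have h2 : a ^ 3 = b ^ 3 := Nat.cast_injective h1
      exact Nat.pow_left_injective (n := 3) (by norm_num) h2
    refine (hinf.image hinj).mono ?_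
    rintro _ ⟨p, ⟨hp1, hp2⟩, rfl⟩
    exact hcon p hp2 hp1
  rw [rst_eval, zero_add] at hd0
  obtain ⟨d, hd⟩ : ∃ d, d = MvPolynomial.eval (((p : K) ^ 3) • (Pi.single i0 1 : α → K)) f :=
    ⟨_, rfl⟩
  -- the field
  obtain ⟨s, hs⟩ : ∃ s : AlgebraicClosure K, s ^ 2 = algebraMap K (AlgebraicClosure K) d :=
    IsAlgClosed.exists_pow_nat_eq _ two_pos
  have hsint : IsIntegral K s := Algebra.IsIntegral.isIntegral s
  let L := IntermediateField.adjoin K {s}
  have hfd : FiniteDimensional K L := IntermediateField.adjoin.finiteDimensional hsint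
  have hnf : NumberField L := NumberField.of_module_finite K L
  refine ⟨L, inferInstance, hnf, inferInstance, ?_, ?_⟩
  · have h1 : Module.finrank K L = (minpoly K s).natDegree := IntermediateField.adjoin.finrank hsint
    rw [h1]
    have h2 : minpoly K s ∣ Polynomial.X ^ 2 - Polynomial.C d := by
      apply minpoly.dvd
      simp [hs]
    refine (Polynomial.natDegree_le_of_dvd h2 ?_).trans ?_
    · exact (Polynomial.monic_X_pow_sub_C d two_ne_zero).ne_zero
    · rw [Polynomial.natDegree_X_pow_sub_C]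
  have hsL : s ∈ L := IntermediateField.mem_adjoin_simple_self K s
  refine hN p hp hpN L ((p : 𝓞 L) ^ 3) dvd_rfl ⟨s, hsL⟩ ?_ ?_
  · intro h1
    have h2 : s = 0 := congrArg Subtype.val h1
    rw [h2, zero_pow two_ne_zero] at hs
    exact hd0 (hd ▸ ((map_eq_zero _).1 hs.symm))
  · have h1 : MvPolynomial.aeval (Pi.single i0 (((p : 𝓞 L) ^ 3 : 𝓞 L) : L)) f =
        algebraMap K L d := by
      rw [hd, MvPolynomial.aeval_def, MvPolynomial.eval, MvPolynomial.coe_eval₂Hom,
        MvPolynomial.hom_eval₂]
      congr 1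
      funext i
      by_cases hi : i = i0
      · subst hi; simp
      · simp [hi]
    rw [h1]
    apply Subtype.ext
    exact hs

end Pool.Agent.K9h33.FLG
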