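import Pool.Agent.K9h33.FLG.Val

/-!
Moving a point of `w² = f(z)` with a small ordinate along a line.
-/

set_option autoImplicit false
set_option linter.unusedSectionVars false
set_option linter.unusedVariables false

open Filter Topology

namespace Pool.Agent.K9h33.FLG

open Pool.Agent.Y720.MZ

/-- a polynomial with small roots is zero -/
lemma zero_of_small {K : Type*} [Field K] {v : AbsoluteValue K ℝ} {g : Polynomial K}
    (h : ∀ ε : ℝ, 0 < ε → ∃ t, t ≠ 0 ∧ v t < ε ∧ g.eval t = 0) : g = 0 := by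
  classical
  by_contra hg
  let F : Finset K := g.roots.toFinset.erase 0
  have hF : ∀ t, t ≠ 0 → g.eval t = 0 → t ∈ F := fun t h1 h2 =>
    Finset.mem_erase.2 ⟨h1, Multiset.mem_toFinset.2 ((Polynomial.mem_roots hg).2 h2)⟩
  obtain ⟨t0, ht0, -, ht0'⟩ := h 1 one_pos
  obtain ⟨m, hm, hmin⟩ := F.exists_min_image (fun t => v t) ⟨t0, hF t0 ht0 ht0'⟩
  obtain ⟨t, ht, hlt, hr⟩ := h (v m) (v.pos (Finset.mem_erase.1 hm).1)
  exact absurd hlt (not_lt.2 (hmin t (hF t ht hr)))

variable {K : Type*} [Field K] [NumberField K] {L : Type*} [NontriviallyNormedField L]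
  [CompleteSpace L] [ProperSpace L] {α : Type*} [Fintype α]

theorem move (σ : K →+* L) (hσ : DenseRange σ) {v : AbsoluteValue K ℝ} (hσv : ∀ x, ‖σ x‖ = v x)
    (hv : IsNonarchimedean v) {p : ℕ} (hp3 : 3 ≤ p)
    (hpk : ∀ k : ℕ, 1 ≤ k → k < p → v (k : K) = 1) (hp1 : v (p : K) < 1)
    {f h q : MvPolynomial α K} (hh : ∀ d, v (h.coeff d) ≤ 1) (hq : ∀ d, v (q.coeff d) ≤ 1)
    {z e : α → K} {w : K} (hz : ∀ i, v (z i) < 1) (he : ∀ i, v (e i) ≤ 1) (hw0 : w ≠ 0)
    (hw : v w < v (p : K)) (hzw : w ^ 2 = MvPolynomial.eval z f)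
    (hf : ∀ t : K, MvPolynomial.eval (z + t • e) f =
      MvPolynomial.eval (z + t • e) h ^ 2 * MvPolynomial.eval (z + t • e) q)
    (hcase : (rst q z e).natDegree ≤ 2 ∨
      ((rst q z e).natDegree ≤ 4 ∧ v (lin q e) = 1 ∧ v (h.coeff 0) = 1)) {ε : ℝ} (hε : 0 < ε) :
    ∃ t Y : K, t ≠ 0 ∧ v t < ε ∧ Y ≠ 0 ∧ v Y < v (p : K) ∧
      Y ^ 2 = MvPolynomial.eval (z + t • e) f := by
  classical
  obtain ⟨H, hH⟩ : ∃ H, H = MvPolynomial.eval z h := ⟨_, rfl⟩
  have hf0 : w ^ 2 = H ^ 2 * MvPolynomial.eval z q := by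
    have h1 := hf 0
    rw [zero_smul, add_zero] at h1
    rw [hzw, h1, hH]
  have hH0 : H ≠ 0 := by
    rintro rfl
    apply hw0
    rw [zero_pow two_ne_zero, zero_mul] at hf0
    exact pow_eq_zero_iff two_ne_zero |>.1 hf0
  obtain ⟨w', hw'⟩ : ∃ w', w' = w / H := ⟨_, rfl⟩
  have hw'0 : w' ≠ 0 := by rw [hw']; exact div_ne_zero hw0 hH0
  have hww' : H * w' = w := by rw [hw']; field_simp
  have hw'q : w' ^ 2 = MvPolynomial.eval z q := by
    rw [hw', div_pow, hf0]
    field_simp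
  have hvw : 0 < v w := v.pos hw0
  have hvw' : 0 < v w' := v.pos hw'0
  obtain ⟨δ, hδ⟩ : ∃ δ, δ = min (min ε 1) (min (v w) (v w / v w')) := ⟨_, rfl⟩
  have hδ0 : 0 < δ := by
    rw [hδ]
    exact lt_min (lt_min hε one_pos) (lt_min hvw (div_pos hvw hvw'))
  -- the point on the curve of genus at most one
  have key : ∃ t Y' : K, t ≠ 0 ∧ v t < δ ∧ v (Y' - w') < δ ∧
      Y' ^ 2 = MvPolynomial.eval (z + t • e) q := by
    rcases hcase with h2 | ⟨h4, hl, hh0⟩
    · obtain ⟨t, Y', ht0, ht, hY, hYe⟩ := conic_near σ hσ (a := (rst q z e).coeff 1)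
        (b := (rst q z e).coeff 2) hw'0 hδ0
      rw [hσv] at ht hY
      refine ⟨t, Y', ht0, ht, hY, ?_⟩
      rw [hYe, ← rst_eval, Polynomial.eval_eq_sum_range' (n := 3) (by omega)]
      simp only [Finset.sum_range_succ, Finset.sum_range_zero, zero_add, pow_zero, mul_one, pow_one]
      rw [rst_zero, ← hw'q]
    · have hvH : v H = 1 := by
        rw [hH]
        exact v_unit hv (eval_near hv hh hz) hh0
      have hvw1 : v w' < v (p : K) := by
        rw [hw', map_div₀, hvH, div_one]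
        exact hw
      obtain ⟨t, Y', ht0, ht, hY, hYe⟩ := quartic_any σ hσ (q₁ := (rst q z e).coeff 1)
        (q₂ := (rst q z e).coeff 2) (q₃ := (rst q z e).coeff 3) (q₄ := (rst q z e).coeff 4) hw'0
        (fun h n hn => io_small hv hp3 hpk hp1 (rst_one_unit hv hq hz he hl)
          (rst_int hv hq (fun i => (hz i).le) he 2) (rst_int hv hq (fun i => (hz i).le) he 3)
          (rst_int hv hq (fun i => (hz i).le) he 4) hw'0 hvw1 h n hn) hδ0
      rw [hσv] at ht hY
      refine ⟨t, Y', ht0, ht, hY, ?_⟩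
      rw [hYe, ← rst_eval, Polynomial.eval_eq_sum_range' (n := 5) (by omega)]
      simp only [Finset.sum_range_succ, Finset.sum_range_zero, zero_add, pow_zero, mul_one, pow_one]
      rw [rst_zero, ← hw'q]
  obtain ⟨t, Y', ht0, ht, hY, hYe⟩ := key
  have ht1 : v t ≤ 1 := (ht.trans_le (hδ ▸ (min_le_left _ _).trans (min_le_right _ _))).le
  have hmv := eval_move hv hh (z := z) (fun i => (hz i).le) he ht1
  have hze : ∀ i, v ((z + t • e) i) ≤ 1 := by
    intro i
    refine na_add hv (hz i).le ?_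
    rw [Pi.smul_apply, smul_eq_mul, map_mul]
    exact mul_le_one₀ ht1 (v.nonneg _) (he i)
  have hint := eval_int hv hh hze
  have hYw : v (MvPolynomial.eval (z + t • e) h * Y' - w) < v w := by
    have e1 : MvPolynomial.eval (z + t • e) h * Y' - w =
        MvPolynomial.eval (z + t • e) h * (Y' - w') +
          (MvPolynomial.eval (z + t • e) h - MvPolynomial.eval z h) * w' := by
      rw [← hH, ← hww']
      ring
    rw [e1]
    refine (hv _ _).trans_lt (max_lt ?_ ?_)
    · rw [map_mul]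
      calc v (MvPolynomial.eval (z + t • e) h) * v (Y' - w') ≤ 1 * v (Y' - w') :=
            mul_le_mul_of_nonneg_right hint (v.nonneg _)
        _ = v (Y' - w') := one_mul _
        _ < δ := hY
        _ ≤ v w := hδ ▸ (min_le_right _ _).trans (min_le_left _ _)
    · rw [map_mul]
      calc v (MvPolynomial.eval (z + t • e) h - MvPolynomial.eval z h) * v w' ≤ v t * v w' :=
            mul_le_mul_of_nonneg_right hmv (v.nonneg _)
        _ < δ * v w' := mul_lt_mul_of_pos_right ht hvw'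
        _ ≤ v w / v w' * v w' :=
            mul_le_mul_of_nonneg_right (hδ ▸ (min_le_right _ _).trans (min_le_right _ _))
              (v.nonneg _)
        _ = v w := div_mul_cancel₀ _ hvw'.ne'
  have hvY : v (MvPolynomial.eval (z + t • e) h * Y') = v w := by
    have h1 := na_eq hv hYw
    rw [← h1]
    congr 1
    ring
  refine ⟨t, MvPolynomial.eval (z + t • e) h * Y', ht0,
    ht.trans_le (hδ ▸ (min_le_left _ _).trans (min_le_left _ _)), ?_, ?_, ?_⟩
  · intro h0
    rw [h0, map_zero] at hvY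
    exact hvw.ne hvY
  · rw [hvY]
    exact hw
  · rw [mul_pow, hYe, hf]

end Pool.Agent.K9h33.FLG
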