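import Pool.Agent.K9h33.FLG.Dens

/-!
Places above large prime numbers, and the field over which the points are dense.
-/

set_option autoImplicit false
set_option linter.unusedSectionVars false
set_option linter.unusedVariables false

open Filter Topology NumberField IsDedekindDomain

namespace Pool.Agent.K9h33.FLG

open Pool.Agent.Y720.MZ

lemma int_mult {K : Type*} [Field K] [NumberField K] (x : K) :
    ∃ m : ℕ, 1 ≤ m ∧ IsIntegral ℤ ((m : K) * x) := by
  obtain ⟨y, hy0, hy⟩ := exists_integral_multiples ℤ ℚ (L := K) {x}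
  replace hy := hy x (Finset.mem_singleton_self x)
  refine ⟨y.natAbs, Int.natAbs_pos.2 hy0, ?_⟩
  rw [zsmul_eq_mul] at hy
  rcases Int.natAbs_eq y with h | h
  · have e : ((y.natAbs : ℕ) : K) = (y : K) := by
      conv_rhs => rw [h]
      simp
    rw [e]
    exact hy
  · have e : ((y.natAbs : ℕ) : K) = -(y : K) := by
      conv_rhs => rw [h]
      simp
    rw [e, neg_mul]
    exact hy.neg

lemma int_mults {K : Type*} [Field K] [NumberField K] (S : Finset K) :
    ∃ N : ℕ, ∀ s ∈ S, ∃ m : ℕ, 1 ≤ m ∧ m ≤ N ∧ IsIntegral ℤ ((m : K) * s) := by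
  classical
  choose m hm1 hm using fun x : K => int_mult x
  refine ⟨∑ s ∈ S, m s, fun s hs => ⟨m s, hm1 s, ?_, hm s⟩⟩
  exact Finset.single_le_sum (f := m) (fun _ _ => Nat.zero_le _) hs

/-- **Places above large prime numbers.** -/
theorem exists_pl (K : Type*) [Field K] [NumberField K] (S : Finset K) : ∃ N : ℕ, ∀ p : ℕ, p.Prime →
    N < p → ∀ (K' : Type*) [Field K'] [NumberField K'] (ι : K →+* K'),
      ∃ v : AbsoluteValue K' ℝ, IsNonarchimedean v ∧ (∀ k : ℕ, 1 ≤ k → k < p → v (k : K') = 1) ∧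
        v (p : K') < 1 ∧ (∀ s ∈ S, v (ι s) ≤ 1) ∧ ∀ s ∈ S, s ≠ 0 → v (ι s) = 1 := by
  classical
  obtain ⟨N1, hN1⟩ := int_mults S
  obtain ⟨N2, hN2⟩ := int_mults (S.image fun s => s⁻¹)
  refine ⟨N1 + N2, fun p hp hNp K' _ _ ι => ?_⟩
  have hnu : ¬ IsUnit ((p : ℕ) : 𝓞 K') := by
    intro hu
    obtain ⟨y, hy⟩ := hu.exists_right_inv
    have h1 : ((p : ℕ) : K') * (y : K') = 1 := by
      have := congrArg (algebraMap (𝓞 K') K') hy
      simpa using this
    have hp0 : ((p : ℕ) : K') ≠ 0 := Nat.cast_ne_zero.2 hp.ne_zero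
    have h2 : (y : K') = algebraMap ℚ K' ((p : ℚ)⁻¹) := by
      rw [map_inv₀, map_natCast]
      exact eq_inv_of_mul_eq_one_right h1
    have h3 : IsIntegral ℤ (algebraMap ℚ K' ((p : ℚ)⁻¹)) := h2 ▸ y.isIntegral_coe
    have h4 : IsIntegral ℤ ((p : ℚ)⁻¹) :=
      (isIntegral_algebraMap_iff (algebraMap ℚ K').injective).1 h3
    obtain ⟨n, hn⟩ := IsIntegrallyClosed.isIntegral_iff.1 h4
    have hpq : ((p : ℕ) : ℚ) ≠ 0 := Nat.cast_ne_zero.2 hp.ne_zero
    have h5 : ((n * p : ℤ) : ℚ) = 1 := by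
      push_cast
      have : (n : ℚ) = (p : ℚ)⁻¹ := by simpa using hn
      rw [this, inv_mul_cancel₀ hpq]
    have h6 : n * (p : ℤ) = 1 := by exact_mod_cast h5
    have h7 : IsUnit (p : ℤ) := isUnit_iff_exists_inv'.2 ⟨n, h6⟩
    rw [Int.isUnit_iff] at h7
    have := hp.two_le
    omega
  obtain ⟨M, hM, hpM⟩ := exists_max_ideal_of_mem_nonunits (mem_nonunits_iff.2 hnu)
  have hMbot : M ≠ ⊥ := by
    rintro rfl
    have h1 := (Submodule.mem_bot _).1 hpM
    exact Nat.cast_ne_zero.2 hp.ne_zero h1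
  let 𝔭 : HeightOneSpectrum (𝓞 K') := ⟨M, hM.isPrime, hMbot⟩
  set v := HeightOneSpectrum.adicAbv K' 𝔭 with hvdef
  have hv : IsNonarchimedean v := HeightOneSpectrum.isNonarchimedean_adicAbv K' 𝔭
  have hint : ∀ x : K', IsIntegral ℤ x → v x ≤ 1 := by
    intro x hx
    exact HeightOneSpectrum.adicAbv_coe_le_one 𝔭 _ (⟨x, hx⟩ : 𝓞 K')
  have hvp : v (p : K') < 1 := by
    have h1 : v (((p : 𝓞 K')) : K') < 1 :=
      (HeightOneSpectrum.adicAbv_coe_lt_one_iff 𝔭 _ _).2 hpM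
    simpa using h1
  have hpk : ∀ k : ℕ, 1 ≤ k → k < p → v (k : K') = 1 := by
    intro k hk1 hk2
    refine le_antisymm (na_nat hv k) ?_
    by_contra hcon
    push Not at hcon
    have hcop : Nat.Coprime k p := (hp.coprime_iff_not_dvd.2 fun h =>
      absurd (Nat.le_of_dvd (by omega) h) (by omega)).symm
    have h1 := Nat.gcd_eq_gcd_ab k p
    rw [hcop] at h1
    have h2 : (1 : K') = (k : K') * ((Nat.gcdA k p : ℤ) : K') +
        (p : K') * ((Nat.gcdB k p : ℤ) : K') := by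
      have := congrArg (fun n : ℤ => (n : K')) h1
      push_cast at this
      simpa using this
    have hz : ∀ n : ℤ, v (n : K') ≤ 1 := fun n => hint _ (by
      have : IsIntegral ℤ (algebraMap ℤ K' n) := isIntegral_algebraMap
      simpa using this)
    have h3 : v (1 : K') < 1 := by
      rw [h2]
      refine (hv _ _).trans_lt (max_lt ?_ ?_)
      · rw [map_mul]
        calc _ ≤ v (k : K') * 1 := mul_le_mul_of_nonneg_left (hz _) (v.nonneg _)
          _ < 1 := by rw [mul_one]; exact hcon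
      · rw [map_mul]
        calc _ ≤ v (p : K') * 1 := mul_le_mul_of_nonneg_left (hz _) (v.nonneg _)
          _ < 1 := by rw [mul_one]; exact hvp
    rw [v.map_one] at h3
    exact lt_irrefl _ h3
  have hmul : ∀ (m : ℕ) (x : K), 1 ≤ m → m < p → IsIntegral ℤ ((m : K) * x) → v (ι x) ≤ 1 := by
    intro m x hm1 hm2 hx
    have h1 : IsIntegral ℤ (ι ((m : K) * x)) := hx.map ι.toIntAlgHom
    have h2 := hint _ h1
    rwa [map_mul, map_mul, map_natCast, hpk m hm1 hm2, one_mul] at h2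
  have hle : ∀ s ∈ S, v (ι s) ≤ 1 := by
    intro s hs
    obtain ⟨m, hm1, hm2, hm3⟩ := hN1 s hs
    exact hmul m s hm1 (by omega) hm3
  refine ⟨v, hv, hpk, hvp, hle, fun s hs hs0 => le_antisymm (hle s hs) ?_⟩
  obtain ⟨m, hm1, hm2, hm3⟩ := hN2 s⁻¹ (Finset.mem_image_of_mem _ hs)
  have h1 := hmul m s⁻¹ hm1 (by omega) hm3
  rw [map_inv₀, map_inv₀] at h1
  have h2 : 0 < v (ι s) := v.pos ((map_ne_zero ι).2 hs0)
  exact (inv_le_one₀ h2).1 h1

end Pool.Agent.K9h33.FLG
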