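import Pool.Agent.Y720.WA.Den5

/-!
Values of polynomials with integral coefficients at integral points, for a nonarchimedean absolute
value.
-/

set_option autoImplicit false
set_option linter.unusedSectionVars false
set_option linter.unusedVariables false

open Filter Topology

namespace Pool.Agent.K9h33.FLG

open Pool.Agent.Y720.MZ

variable {K : Type*} [Field K] [CharZero K] {α : Type*} [Fintype α] {v : AbsoluteValue K ℝ}

lemma v_sum_lt (hv : IsNonarchimedean v) {ι : Type*} (s : Finset ι) (g : ι → K)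
    (h : ∀ i ∈ s, v (g i) < 1) : v (∑ i ∈ s, g i) < 1 := by
  classical
  induction s using Finset.induction_on with
  | empty => simp
  | insert i s hi ih =>
    rw [Finset.sum_insert hi]
    refine (hv _ _).trans_lt (max_lt (h i (Finset.mem_insert_self i s)) (ih fun j hj =>
      h j (Finset.mem_insert_of_mem hj)))

lemma v_sum_le (hv : IsNonarchimedean v) {ι : Type*} (s : Finset ι) (g : ι → K) {r : ℝ}
    (hr : 0 ≤ r) (h : ∀ i ∈ s, v (g i) ≤ r) : v (∑ i ∈ s, g i) ≤ r := by
  classical
  induction s using Finset.induction_on with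
  | empty => simpa using hr
  | insert i s hi ih =>
    rw [Finset.sum_insert hi]
    exact na_add hv (h i (Finset.mem_insert_self i s)) (ih fun j hj =>
      h j (Finset.mem_insert_of_mem hj))

/-- equality of values -/
lemma v_unit (hv : IsNonarchimedean v) {x y : K} (hx : v (x - y) < 1) (hy : v y = 1) : v x = 1 := by
  have h := na_eq hv (x := y) (y := x - y) (by rw [hy]; exact hx)
  rw [← hy, ← h]
  congr 1
  ring

/-- the coefficients of the restriction to a line -/
lemma rst_int (hv : IsNonarchimedean v) {f : MvPolynomial α K} (hf : ∀ d, v (f.coeff d) ≤ 1)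
    {z e : α → K} (hz : ∀ i, v (z i) ≤ 1) (he : ∀ i, v (e i) ≤ 1) (k : ℕ) :
    v ((rst f z e).coeff k) ≤ 1 := by
  have hC : ∀ x : K, v x ≤ 1 → Polynomial.C x ∈ Polynomial.lifts (ivr hv).subtype := by
    intro x hx
    exact Polynomial.C'_mem_lifts ⟨⟨x, hx⟩, rfl⟩
  have h1 : rst f z e ∈ Polynomial.lifts (ivr hv).subtype := by
    rw [rst, MvPolynomial.aeval_def, MvPolynomial.eval₂_eq']
    refine Subsemiring.sum_mem _ fun d _ => Subsemiring.mul_mem _ (hC _ (hf d)) ?_
    refine Subsemiring.prod_mem _ fun i _ => Subsemiring.pow_mem _ ?_ _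
    exact Subsemiring.add_mem _ (hC _ (hz i)) (Subsemiring.mul_mem _ (hC _ (he i))
      (Polynomial.X_mem_lifts _))
  obtain ⟨y, hy⟩ := (Polynomial.lifts_iff_coeff_lifts _).1 h1 k
  rw [← hy]
  exact y.2

/-- the value at an integral point -/
lemma eval_int (hv : IsNonarchimedean v) {f : MvPolynomial α K} (hf : ∀ d, v (f.coeff d) ≤ 1)
    {z : α → K} (hz : ∀ i, v (z i) ≤ 1) : v (MvPolynomial.eval z f) ≤ 1 := by
  have h := rst_int hv hf hz (e := 0) (by simp) 0
  rwa [Polynomial.coeff_zero_eq_eval_zero, rst_eval, zero_smul, add_zero] at h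

/-- the value at a point close to the origin -/
lemma eval_near (hv : IsNonarchimedean v) {f : MvPolynomial α K} (hf : ∀ d, v (f.coeff d) ≤ 1)
    {z : α → K} (hz : ∀ i, v (z i) < 1) : v (MvPolynomial.eval z f - f.coeff 0) < 1 := by
  classical
  have h1 : MvPolynomial.eval z f - f.coeff 0 =
      ∑ d ∈ f.support, (if d = 0 then 0 else f.coeff d * ∏ i, z i ^ d i) := by
    rw [MvPolynomial.eval_eq']
    have h2 : f.coeff 0 = ∑ d ∈ f.support, (if d = 0 then f.coeff d else 0) := by
      rw [Finset.sum_ite_eq' f.support 0]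
      split_ifs with h
      · rfl
      · exact MvPolynomial.notMem_support_iff.1 h
    rw [h2, ← Finset.sum_sub_distrib]
    refine Finset.sum_congr rfl fun d _ => ?_
    split_ifs with h
    · subst h
      simp
    · rw [sub_zero]
  rw [h1]
  refine v_sum_lt hv _ _ fun d _ => ?_
  split_ifs with h
  · simp
  · obtain ⟨i, hi⟩ : ∃ i, d i ≠ 0 := by
      by_contra hcon
      push Not at hcon
      exact h (Finsupp.ext hcon)
    rw [map_mul, map_prod]
    have h3 : ∏ j, v (z j ^ d j) ≤ v (z i) := by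
      rw [← Finset.mul_prod_erase _ _ (Finset.mem_univ i)]
      have h4 : ∏ j ∈ Finset.univ.erase i, v (z j ^ d j) ≤ 1 := by
        refine Finset.prod_le_one (fun j _ => v.nonneg _) fun j _ => ?_
        rw [map_pow]
        exact pow_le_one₀ (v.nonneg _) (hz j).le
      have h5 : v (z i ^ d i) ≤ v (z i) := by
        rw [map_pow]
        exact pow_le_of_le_one (v.nonneg _) (hz i).le hi
      calc v (z i ^ d i) * ∏ j ∈ Finset.univ.erase i, v (z j ^ d j)
          ≤ v (z i) * 1 := mul_le_mul h5 h4 (Finset.prod_nonneg fun j _ => v.nonneg _) (v.nonneg _)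
        _ = v (z i) := mul_one _
    calc v (f.coeff d) * ∏ j, v (z j ^ d j) ≤ 1 * v (z i) :=
          mul_le_mul (hf d) h3 (Finset.prod_nonneg fun j _ => v.nonneg _) zero_le_one
      _ < 1 := by rw [one_mul]; exact hz i

/-- the derivatives have integral coefficients -/
lemma dd_int (hv : IsNonarchimedean v) {f : MvPolynomial α K} (hf : ∀ d, v (f.coeff d) ≤ 1)
    {e : α → K} (he : ∀ i, v (e i) ≤ 1) (d : α →₀ ℕ) : v ((dd f e).coeff d) ≤ 1 := by
  rw [dd, MvPolynomial.coeff_sum]
  refine v_sum_le hv _ _ zero_le_one fun i _ => ?_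
  rw [MvPolynomial.coeff_C_mul, MvPolynomial.coeff_pderiv, map_mul, map_mul]
  have h1 : v ((d i : K) + 1) ≤ 1 := by
    have := na_nat hv (d i + 1)
    push_cast at this
    exact this
  calc v (e i) * (v (f.coeff (d + Finsupp.single i 1)) * v ((d i : K) + 1)) ≤ 1 * (1 * 1) := by
        refine mul_le_mul (he i) (mul_le_mul (hf _) h1 (v.nonneg _) zero_le_one)
          (mul_nonneg (v.nonneg _) (v.nonneg _)) zero_le_one
    _ = 1 := by norm_num

/-- the linear part -/
noncomputable def lin (f : MvPolynomial α K) (e : α → K) : K :=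
  ∑ i, e i * f.coeff (Finsupp.single i 1)

lemma dd_zero (f : MvPolynomial α K) (e : α → K) : (dd f e).coeff 0 = lin f e := by
  rw [dd, MvPolynomial.coeff_sum, lin]
  refine Finset.sum_congr rfl fun i _ => ?_
  rw [MvPolynomial.coeff_C_mul, MvPolynomial.coeff_pderiv]
  simp

lemma rst_one (f : MvPolynomial α K) (z e : α → K) :
    (rst f z e).coeff 1 = MvPolynomial.eval z (dd f e) := by
  have h1 : (Polynomial.derivative (rst f z e)).coeff 0 = (rst f z e).coeff 1 := by
    rw [Polynomial.coeff_derivative]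
    simp
  rw [← h1, rst_deriv, Polynomial.coeff_zero_eq_eval_zero, rst_eval, zero_smul, add_zero]

/-- the first coefficient is a unit -/
lemma rst_one_unit (hv : IsNonarchimedean v) {f : MvPolynomial α K}
    (hf : ∀ d, v (f.coeff d) ≤ 1) {z e : α → K} (hz : ∀ i, v (z i) < 1) (he : ∀ i, v (e i) ≤ 1)
    (hl : v (lin f e) = 1) : v ((rst f z e).coeff 1) = 1 := by
  rw [rst_one]
  refine v_unit hv ?_ hl
  rw [← dd_zero]
  exact eval_near hv (dd_int hv hf he) hz

lemma rst_zero (f : MvPolynomial α K) (z e : α → K) :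
    (rst f z e).coeff 0 = MvPolynomial.eval z f := by
  rw [Polynomial.coeff_zero_eq_eval_zero, rst_eval, zero_smul, add_zero]

/-- continuity -/
lemma eval_move (hv : IsNonarchimedean v) {f : MvPolynomial α K} (hf : ∀ d, v (f.coeff d) ≤ 1)
    {z e : α → K} (hz : ∀ i, v (z i) ≤ 1) (he : ∀ i, v (e i) ≤ 1) {t : K} (ht : v t ≤ 1) :
    v (MvPolynomial.eval (z + t • e) f - MvPolynomial.eval z f) ≤ v t := by
  rw [← rst_eval, ← rst_zero f z e, Polynomial.eval_eq_sum_range, Finset.sum_range_succ', pow_zero,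
    mul_one, add_sub_cancel_right]
  refine v_sum_le hv _ _ (v.nonneg _) fun k _ => ?_
  rw [map_mul, map_pow, pow_succ]
  calc v ((rst f z e).coeff (k + 1)) * (v t ^ k * v t) ≤ 1 * (1 * v t) := by
        refine mul_le_mul (rst_int hv hf hz he _) (mul_le_mul_of_nonneg_right
          (pow_le_one₀ (v.nonneg _) ht) (v.nonneg _)) (mul_nonneg (pow_nonneg (v.nonneg _) _)
          (v.nonneg _)) zero_le_one
    _ = v t := by ring

end Pool.Agent.K9h33.FLG
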